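import Pool.Agent.Helper16.SD.GoalsE

/-!
# Project SD (MP_fc6b1e_nt), packet B_KUM: the Kummer character of `x`
-/

set_option autoImplicit false

namespace Pool.Agent.Helper14.SD.B_KUM

open Pool.Agent.Helper16.SD
open Pool.Agent.Helper51.SigLeo Pool.Agent.Helper51.RP Pool.Agent.Helper51.REC

section gen

variable {p : ℕ} [Fact p.Prime] {Ω : Type} [Field Ω]

theorem pow_val_add {e : Ω} (he : e ^ p = 1) (s t : ZMod p) :
    e ^ (s + t).val = e ^ s.val * e ^ t.val := by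
  rw [ZMod.val_add, ← pow_add]
  exact (pow_eq_pow_mod _ he).symm

theorem pow_val_natCast_mul {e : Ω} (he : e ^ p = 1) (c : ZMod p) (m : ℕ) :
    e ^ (c * (m : ZMod p)).val = (e ^ c.val) ^ m := by
  induction m with
  | zero => simp
  | succ m ih =>
    rw [Nat.cast_succ, mul_add, mul_one, pow_val_add he, ih, pow_succ]

/-- quotients of two `p`-th roots -/
theorem quot_root {e : Ω} (he : IsPrimitiveRoot e p) {r r' x : Ω} (hx : x ≠ 0) (hr : r ^ p = x)
    (hr' : r' ^ p = x) : ∃ t : ZMod p, r' = e ^ t.val * r := by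
  have hp : p.Prime := Fact.out
  have hr0 : r ≠ 0 := by
    rintro rfl
    rw [zero_pow hp.ne_zero] at hr
    exact hx hr.symm
  have h1 : (r' / r) ^ p = 1 := by
    rw [div_pow, hr, hr', div_self hx]
  obtain ⟨i, hi, hi'⟩ := he.eq_pow_of_pow_eq_one h1
  refine ⟨(i : ZMod p), ?_⟩
  rw [ZMod.val_natCast_of_lt hi, hi']
  field_simp

end gen

theorem t : Pool.Agent.Helper16.SD.B_KUM := by
  intro p _ K _ _ F _ ε hε k hk φ hφ hunit L _ _ _ v hv hfix x hPw hy
  have hp : p.Prime := Fact.out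
  obtain ⟨y, hy⟩ := hy
  obtain ⟨a₀, ha₀, hu⟩ := hunit
  obtain ⟨e, he⟩ : ∃ e : AlgebraicClosure K, e = (ε : AlgebraicClosure K) := ⟨_, rfl⟩
  have heF : e ∈ F := by rw [he]; exact ε.2
  have hep : IsPrimitiveRoot e p := by
    rw [he]
    exact hε.map_of_injective (algebraMap F (AlgebraicClosure K)).injective
  have he1 : e ^ p = 1 := hep.pow_eq_one
  rw [← he]
  obtain ⟨X, hX⟩ : ∃ X : AlgebraicClosure K, X = ((x : F) : AlgebraicClosure K) := ⟨_, rfl⟩
  rw [← hX]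
  have hXF : X ∈ F := by rw [hX]; exact (x : F).2
  have hX0 : X ≠ 0 := by
    rw [hX]
    intro h0
    exact x.ne_zero (Subtype.ext h0)
  obtain ⟨r₀, hr₀⟩ : ∃ r₀, r₀ = v y := ⟨_, rfl⟩
  have hr₀p : r₀ ^ p = X := by
    rw [hr₀, ← map_pow, hy, hv, hX]
  have hr₀0 : r₀ ≠ 0 := by
    rintro h0
    rw [h0, zero_pow hp.ne_zero] at hr₀p
    exact hX0 hr₀p.symm
  -- powers of an element
  have hpowfix : ∀ a : AlgebraicClosure K ≃ₐ[K] AlgebraicClosure K, (∀ z ∈ F, a z = z) →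
      ∀ n : ℕ, ∀ z ∈ F, (a ^ n) z = z := by
    intro a ha n
    induction n with
    | zero => intro z _; rfl
    | succ n ih =>
      intro z hz
      rw [pow_succ, AlgEquiv.mul_apply, ha z hz, ih z hz]
  have hφ1 : φ 1 = 0 := by
    have h1 := hφ 1 1 (fun _ _ => rfl) (fun _ _ => rfl)
    rw [one_mul] at h1
    exact left_eq_add.1 h1
  have hφpow : ∀ a : AlgebraicClosure K ≃ₐ[K] AlgebraicClosure K, (∀ z ∈ F, a z = z) →
      ∀ n : ℕ, φ (a ^ n) = n * φ a := by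
    intro a ha n
    induction n with
    | zero => rw [pow_zero, hφ1, Nat.cast_zero, zero_mul]
    | succ n ih =>
      rw [pow_succ, hφ _ _ (hpowfix a ha n) ha, ih]
      push_cast
      ring
  -- an element with value `1`
  obtain ⟨a₁, ha₁, hφa₁⟩ : ∃ a₁ : AlgebraicClosure K ≃ₐ[K] AlgebraicClosure K,
      (∀ z ∈ F, a₁ z = z) ∧ φ a₁ = 1 := by
    obtain ⟨u, hu⟩ := hu
    refine ⟨a₀ ^ ((u⁻¹ : (ZMod (p ^ k))ˣ) : ZMod (p ^ k)).val, hpowfix a₀ ha₀ _, ?_⟩
    rw [hφpow a₀ ha₀, ZMod.natCast_zmod_val, ← hu, Units.inv_mul]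
  obtain ⟨c, hc⟩ := quot_root hep hX0 hr₀p (r' := a₁ r₀) (by rw [← map_pow, hr₀p, ha₁ X hXF])
  have hpow1 : ∀ m : ℕ, (a₁ ^ m) r₀ = (e ^ c.val) ^ m * r₀ := by
    intro m
    induction m with
    | zero => rw [pow_zero, pow_zero, one_mul]; rfl
    | succ m ih =>
      rw [pow_succ', AlgEquiv.mul_apply, ih, map_mul, map_pow, map_pow, ha₁ e heF, hc, pow_succ,
        mul_assoc]
  have hmain : ∀ a : AlgebraicClosure K ≃ₐ[K] AlgebraicClosure K, (∀ z ∈ F, a z = z) →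
      a r₀ = (e ^ c.val) ^ (φ a).val * r₀ := by
    intro a ha
    obtain ⟨b, hb⟩ : ∃ b, b = a * (a₁ ^ (φ a).val)⁻¹ := ⟨_, rfl⟩
    have hab : a = b * a₁ ^ (φ a).val := by rw [hb, inv_mul_cancel_right]
    have hbF : ∀ z ∈ F, b z = z := by
      intro z hz
      have h1 : a z = b ((a₁ ^ (φ a).val) z) := by
        conv_lhs => rw [hab]
        rfl
      rw [hpowfix a₁ ha₁ _ z hz, ha z hz] at h1
      exact h1.symm
    have hφb : φ b = 0 := by
      have h1 := hφ b (a₁ ^ (φ a).val) hbF (hpowfix a₁ ha₁ _)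
      rw [← hab, hφpow a₁ ha₁, hφa₁, mul_one, ZMod.natCast_zmod_val] at h1
      exact (right_eq_add.1 h1)
    have hbr : b r₀ = r₀ := by
      rw [hr₀]
      exact hfix b hbF hφb y
    have h2 : a r₀ = b ((a₁ ^ (φ a).val) r₀) := by
      conv_lhs => rw [hab]
      rfl
    rw [h2, hpow1, map_mul, map_pow, map_pow, hbF e heF, hbr]
  refine ⟨c, ?_, ?_⟩
  · rw [isUnit_iff_ne_zero]
    intro h0
    apply hPw
    have h3 : r₀ ∈ IntermediateField.fixedField F.fixingSubgroup := by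
      rw [IntermediateField.mem_fixedField_iff]
      intro h hh
      have h4 := hmain h ((IntermediateField.mem_fixingSubgroup_iff F h).1 hh)
      rwa [h0, ZMod.val_zero, pow_zero, one_pow, one_mul] at h4
    rw [InfiniteGalois.fixedField_fixingSubgroup] at h3
    have h6 : (⟨r₀, h3⟩ : F) ≠ 0 := fun h7 => hr₀0 (congrArg Subtype.val h7)
    refine ⟨Units.mk0 ⟨r₀, h3⟩ h6, Units.ext (Subtype.ext ?_)⟩
    rw [← hX, ← hr₀p]
    rfl
  · intro a ha r hr
    obtain ⟨i, hi⟩ := quot_root hep hX0 hr₀p hr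
    have h5 : ZMod.castHom (dvd_pow_self p (Nat.one_le_iff_ne_zero.1 hk)) (ZMod p) (φ a) =
        (((φ a).val : ℕ) : ZMod p) := by
      rw [ZMod.castHom_apply, ZMod.natCast_val]
    rw [h5, pow_val_natCast_mul he1, hi, map_mul, map_pow, ha e heF, hmain a ha]
    ring

end Pool.Agent.Helper14.SD.B_KUM
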