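import Pool.Agent.Helper16.SD.GoalsD

/-!
# Project SD (MP_fc6b1e_nt), packet K_KER: the kernel of the Kummer symbols
-/

set_option autoImplicit false

namespace Pool.Agent.Helper14.SD.K_KER

open Pool.Agent.Helper16.SD

theorem t (hS : Pool.Agent.Helper16.SD.K_SPEC) : Pool.Agent.Helper16.SD.K_KER := by
  intro p _ K _ _ k ζ hζ M hζM x hx hxM hker
  have hp : 0 < p := (Fact.out : p.Prime).pos
  obtain ⟨r, hr⟩ := IsAlgClosed.exists_pow_nat_eq x (pow_pos hp k)
  refine ⟨r, ?_, hr⟩
  obtain ⟨h1, -⟩ := hS p K k ζ hζ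
  have hfix : ∀ h : AlgebraicClosure K ≃ₐ[K] AlgebraicClosure K, (∀ y ∈ M, h y = y) → h r = r := by
    intro h hM
    have h2 := (h1 x h hx (hM ζ hζM) (hM x hxM) r hr 0).2 (hker h hM).symm
    rwa [ZMod.val_zero, pow_zero, one_mul] at h2
  have h3 : r ∈ IntermediateField.fixedField M.fixingSubgroup := by
    rw [IntermediateField.mem_fixedField_iff]
    intro h hh
    exact hfix h ((IntermediateField.mem_fixingSubgroup_iff M h).1 hh)
  rwa [InfiniteGalois.fixedField_fixingSubgroup] at h3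

end Pool.Agent.Helper14.SD.K_KER
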