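import Pool.Agent.Helper16.SD.GoalsX
import Pool.Agent.Helper77.TH.CNT

/-!
# Project SD, X_CNT: counting the roots `ξ (ζ - u)` of a polynomial over `ℤ_p`
-/

set_option autoImplicit false

namespace Pool.Agent.Helper14.SD.X_CNT

open Polynomial Pool.Agent.Helper77.TH Pool.Agent.Helper16.SD

section norms

variable {p : ℕ} [hp : Fact p.Prime]

/-- `1/p < ‖1 - ζ‖` for a primitive `p^n`-th root of unity, `p` odd -/
lemma inv_lt {ζ : ℂ_[p]} {n : ℕ} (hp2 : p ≠ 2) (hn : 1 ≤ n) (hζ : IsPrimitiveRoot ζ (p ^ n)) :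
    (p : ℝ)⁻¹ < ‖1 - ζ‖ := by
  have hlt := norm_lt_one hn hζ
  obtain ⟨n, rfl⟩ : ∃ m, n = m + 1 := ⟨n - 1, by omega⟩
  have h := norm_pow_tot hζ
  have h3 : 3 ≤ p := by
    have := hp.out.two_le
    omega
  have h2 : 2 ≤ Nat.totient (p ^ (n + 1)) := by
    rw [Nat.totient_prime_pow_succ hp.out]
    have h4 : 1 ≤ p ^ n := Nat.one_le_pow _ _ hp.out.pos
    calc 2 = 1 * 2 := rfl
      _ ≤ p ^ n * (p - 1) := Nat.mul_le_mul h4 (by omega)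
  have hp0 : (0 : ℝ) < (p : ℝ)⁻¹ := inv_pos.mpr (by exact_mod_cast hp.out.pos)
  have hpos : 0 < ‖1 - ζ‖ := by
    by_contra hcon
    have h3 : ‖1 - ζ‖ = 0 := le_antisymm (not_lt.mp hcon) (norm_nonneg _)
    rw [h3, zero_pow (by omega)] at h
    exact hp0.ne h
  rw [← h]
  calc ‖1 - ζ‖ ^ Nat.totient (p ^ (n + 1)) ≤ ‖1 - ζ‖ ^ 2 :=
        pow_le_pow_of_le_one (norm_nonneg _) hlt.le h2
    _ = ‖1 - ζ‖ * ‖1 - ζ‖ := sq _
    _ < ‖1 - ζ‖ * 1 := mul_lt_mul_of_pos_left hlt hpos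
    _ = ‖1 - ζ‖ := mul_one _

lemma norm_zp (a : ℤ_[p]) : ‖zp p a‖ = ‖a‖ := norm_zc a

lemma norm_u {u : ℤ_[p]} (hu : (p : ℤ_[p]) ∣ u - 1) : ‖zp p u - 1‖ ≤ (p : ℝ)⁻¹ := by
  have h1 : zp p u - 1 = zp p (u - 1) := by rw [map_sub, map_one]
  rw [h1, norm_zp]
  obtain ⟨w, hw⟩ := hu
  rw [hw, norm_mul, PadicInt.norm_p]
  calc (p : ℝ)⁻¹ * ‖w‖ ≤ (p : ℝ)⁻¹ * 1 :=
        mul_le_mul_of_nonneg_left (PadicInt.norm_le_one _) (by positivity)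
    _ = _ := mul_one _

lemma norm_zu {ζ : ℂ_[p]} {n : ℕ} (hp2 : p ≠ 2) (hn : 1 ≤ n) (hζ : IsPrimitiveRoot ζ (p ^ n))
    {u : ℤ_[p]} (hu : (p : ℤ_[p]) ∣ u - 1) : ‖ζ - zp p u‖ = ‖1 - ζ‖ := by
  have h1 : ζ - zp p u = (ζ - 1) + (1 - zp p u) := by ring
  have h2 : ‖1 - zp p u‖ < ‖ζ - 1‖ := by
    rw [norm_sub_rev 1, norm_sub_rev ζ]
    exact (norm_u hu).trans_lt (inv_lt hp2 hn hζ)
  rw [h1, IsUltrametricDist.norm_add_eq_max_of_norm_ne_norm h2.ne', max_eq_left h2.le,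
    norm_sub_rev]

end norms

/-- counting -/
theorem t : Pool.Agent.Helper16.SD.X_CNT := by
  intro p hp hp2 ξ d hd hξ u hu N D hD s hs
  have hch : ∀ n : ℕ, ∃ ζ : ℂ_[p], n ∈ s → 1 ≤ n ∧ IsPrimitiveRoot ζ (p ^ n) ∧
      D.eval₂ (zp p) (ξ * (ζ - zp p u)) = 0 := by
    intro n
    by_cases hn : n ∈ s
    · obtain ⟨h1, ζ, h2, h3⟩ := hs n hn
      exact ⟨ζ, fun _ => ⟨h1, h2, h3⟩⟩
    · exact ⟨0, fun h => absurd h hn⟩
  choose ζ hζ using hch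
  have hξn : ‖ξ‖ = 1 := norm_root hd.ne' hξ
  have hnt : ∀ n ∈ s, ‖ξ * (ζ n - zp p u)‖ = ‖1 - ζ n‖ := fun n hn => by
    rw [norm_mul, hξn, one_mul, norm_zu hp2 (hζ n hn).1 (hζ n hn).2.1 hu]
  have hti : ∀ n ∈ s, (zp p).IsIntegralElem (ξ * (ζ n - zp p u)) := fun n hn =>
    RingHom.IsIntegralElem.mul (zp p) (integral_root hd hξ)
      (RingHom.IsIntegralElem.sub (zp p) (integral_root (pow_pos hp.out.pos n)
      (hζ n hn).2.1.pow_eq_one) (RingHom.isIntegralElem_map (zp p)))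
  have htower : @IsScalarTower ℤ_[p] ℚ_[p] ℂ_[p] _ _ (zp p).toAlgebra.toSMul :=
    @IsScalarTower.of_algebraMap_eq ℤ_[p] ℚ_[p] ℂ_[p] _ _ _ _ _ (zp p).toAlgebra fun x => rfl
  have htop : ∀ n ∈ s, IsIntegral ℚ_[p] (ξ * (ζ n - zp p u)) := fun n hn =>
    RingHom.IsIntegralElem.of_comp (hti n hn)
  refine @abs_cnt p hp ℂ_[p] _ (zp p).toAlgebra _ htower N D hD s
    (fun n => ξ * (ζ n - zp p u)) hti (fun n hn => (hζ n hn).2.2) ?_ ?_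
  · intro n hn m hm h
    refine norm_inj (hζ n hn).1 (hζ m hm).1 (hζ n hn).2.1 (hζ m hm).2.1 ?_
    rw [← hnt n hn, ← hnt m hm, norm_alg _ (htop n hn), norm_alg _ (htop m hm)]
    exact congrArg spectralValue h
  · intro n hn h hh
    refine dvd_const h (ξ * (ζ n - zp p u)) ?_ hh
    rw [hnt n hn]
    exact norm_lt_one (hζ n hn).1 (hζ n hn).2.1

end Pool.Agent.Helper14.SD.X_CNT
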